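import Pool.Agent.MWA.StmtsB

/-!
# Row EQV of block MWA (MP_23468a_al)
-/

namespace Pool.Agent.MWA.H45

open Pool.Agent.Helper14_MV Pool.Agent.Helper2_MV Pool.Agent.MVO Pool.Agent.MWL Pool.Agent.MWS
open Pool.Agent.MWA

/-- the map which sends the interval between `j` and `s` to `s` -/
def fm (j s : ℕ) : ℕ → ℕ := fun r => if (j ≤ r ∧ r ≤ s) ∨ (s ≤ r ∧ r ≤ j) then s else r

theorem fm_mono (j s : ℕ) {x y : ℕ} (h : x ≤ y) : fm j s x ≤ fm j s y := by
  unfold fm
  split_ifs with h1 h2 h2 <;> omega

theorem fm_le (j s k : ℕ) (_hj : j ≤ k) (hs : s ≤ k) {x : ℕ} (h : x ≤ k) : fm j s x ≤ k := by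
  unfold fm
  split_ifs with h1 <;> omega

theorem eqv (h1 : HabStmt) (h2 : BtfStmt) (h3 : BtuStmt) : EqvStmt := by
  intro β hβ k a b i j s hda hdb hla hlb hji hsi habs hb θ' hle hbt
  obtain ⟨hik, hai, haz⟩ := hla
  have hθ : BsA θ' := BsA.mono hβ hle
  have hsk : s ≤ k := le_trans hsi hik
  have hjk : j ≤ k := by omega
  have hmap : BMap k k (fm j s) := ⟨fun x y hxy _ => fm_mono j s hxy, fun x hx => fm_le j s k hjk hsk hx⟩
  have hfi : fm j s i = i := by
    unfold fm
    split_ifs with h <;> omega
  have hfj : fm j s j = s := by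
    unfold fm
    rw [if_pos]
    omega
  have hL : Lst k (a2 a j) i := by
    refine ⟨hik, ?_, ?_⟩
    · unfold a2; omega
    · intro t hit htk
      have := haz t hit htk
      have htj : t ≠ j := by omega
      simp only [a2, if_neg htj, this]
  have hD : 2 ≤ deg k (a2 a j) := by
    refine le_trans hda ?_
    unfold deg
    exact Finset.sum_le_sum (fun t _ => by unfold a2; omega)
  have hpb : ∀ r ≤ k, psh k (fm j s) b r ≤ b r := by
    intro r hr
    have h0 : psh k (fm j s) b r ≤ ∑ t ∈ Finset.range (k + 1), if t = r then b r else 0 := by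
      unfold psh
      refine Finset.sum_le_sum (fun t _ => ?_)
      by_cases hft : fm j s t = r
      · rw [if_pos hft]
        unfold fm at hft
        by_cases hin : (j ≤ t ∧ t ≤ s) ∨ (s ≤ t ∧ t ≤ j)
        · rw [if_pos hin] at hft
          by_cases hts : t = s
          · rw [if_pos (by omega), show t = r by omega]
          · rw [hb t hin hts]; exact Nat.zero_le _
        · rw [if_neg hin] at hft
          rw [if_pos hft, hft]
      · rw [if_neg hft]; exact Nat.zero_le _
    rw [Finset.sum_ite_eq' (Finset.range (k + 1)) r (fun _ => b r),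
      if_pos (Finset.mem_range.2 (by omega))] at h0
    exact h0
  have hpa : ∀ r ≤ k, psh k (fm j s) (a2 a j) r ≤
      (if r = s then psh k (fm j s) (a2 a j) s else a r) := by
    intro r hr
    by_cases hrs : r = s
    · rw [if_pos hrs, hrs]
    · rw [if_neg hrs]
      have h0 : psh k (fm j s) (a2 a j) r ≤
          ∑ t ∈ Finset.range (k + 1), if t = r then a r else 0 := by
        unfold psh
        refine Finset.sum_le_sum (fun t _ => ?_)
        by_cases hft : fm j s t = r
        · rw [if_pos hft]
          unfold fm at hft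
          by_cases hin : (j ≤ t ∧ t ≤ s) ∨ (s ≤ t ∧ t ≤ j)
          · rw [if_pos hin] at hft
            exact absurd hft.symm hrs
          · rw [if_neg hin] at hft
            have htj : t ≠ j := by omega
            subst hft
            rw [if_pos rfl]
            simp only [a2, if_neg htj]
            omega
        · rw [if_neg hft]; exact Nat.zero_le _
      rw [Finset.sum_ite_eq' (Finset.range (k + 1)) r (fun _ => a r),
        if_pos (Finset.mem_range.2 (by omega))] at h0
      exact h0
  have hcs : 2 ≤ psh k (fm j s) (a2 a j) s := by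
    have h0 : (if fm j s j = s then a2 a j j else 0) ≤ psh k (fm j s) (a2 a j) s := by
      unfold psh
      exact Finset.single_le_sum (f := fun t => if fm j s t = s then a2 a j t else 0)
        (fun _ _ => Nat.zero_le _) (Finset.mem_range.2 (show j < k + 1 by omega))
    rw [if_pos hfj] at h0
    have h00 : a2 a j j = a j + 2 := by simp [a2]
    omega
  have hB : Bt θ' k (fun r => if r = s then psh k (fm j s) (a2 a j) s else a r) b (fm j s i) :=
    h3 θ' hθ.cl k k (fm j s) (a2 a j) b _ b i hmap hD hdb hL hlb hbt hpa hpb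
  rw [hfi] at hB
  have hac : L1 β k a (fun r => if r = s then psh k (fm j s) (a2 a j) s else a r) := by
    refine (h1 β hβ.ap).2 k a _ (fun r hr => ?_)
    by_cases hrs : r = s
    · right
      rw [hrs]
      simp only [if_true]
      exact ⟨hcs, habs⟩
    · left
      simp only [if_neg hrs]
  exact (h2 θ' k a _ b b (L1.mono hle hac) (RR.refl _)).2 i hB

end Pool.Agent.MWA.H45
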