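import Pool.Agent.MWA.StmtsQ
import Pool.Agent.Helper45_MWA.EQV

/-!
# Row EQP of block MWA, period n (MP_23468a_al)
-/

namespace Pool.Agent.MWA.H45

open Pool.Agent.Helper14_MV Pool.Agent.Helper2_MV Pool.Agent.MVO Pool.Agent.MWL Pool.Agent.MWS
open Pool.Agent.MWA

theorem eqp (h3 : BtuStmt) (h4 : BtrStmt) : EqpStmt := by
  intro n β hβ k a b i j s hda hdb hla hlb hji hsi habs hb θ' hle hbt
  have hn : 1 ≤ n := hβ.pos
  obtain ⟨hik, hai, haz⟩ := hla
  have hθ : BsP n θ' := BsP.mono hβ hle
  have hsk : s ≤ k := le_trans hsi hik
  have hjk : j ≤ k := by omega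
  have hmap : BMap k k (fm j s) := ⟨fun x y hxy _ => fm_mono j s hxy, fun x hx => fm_le j s k hjk hsk hx⟩
  have hfi : fm j s i = i := by
    unfold fm
    split_ifs with h <;> omega
  have hfj : fm j s j = s := by
    unfold fm
    rw [if_pos]
    omega
  have hL : Lst k (ad n a j) i := by
    refine ⟨hik, ?_, ?_⟩
    · unfold ad; omega
    · intro t hit htk
      have := haz t hit htk
      have htj : t ≠ j := by omega
      simp only [ad, if_neg htj, this]
  have hD : 2 ≤ deg k (ad n a j) := by
    refine le_trans hda ?_
    unfold deg
    exact Finset.sum_le_sum (fun t _ => by unfold ad; omega)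
  have hpb : ∀ r ≤ k, psh k (fm j s) b r ≤ b r := by
    intro r hr
    have h0 : psh k (fm j s) b r ≤ ∑ t ∈ Finset.range (k + 1), if t = r then b r else 0 := by
      unfold psh
      refine Finset.sum_le_sum (fun t _ => ?_)
      by_cases hft : fm j s t = r
      · rw [if_pos hft]
        unfold fm at hft
        by_cases hin : (j ≤ t ∧ t ≤ s) ∨ (s ≤ t ∧ t ≤ j)
        · rw [if_pos hin] at hft
          by_cases hts : t = s
          · rw [if_pos (by omega), show t = r by omega]
          · rw [hb t hin hts]; exact Nat.zero_le _
        · rw [if_neg hin] at hft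
          rw [if_pos hft, hft]
      · rw [if_neg hft]; exact Nat.zero_le _
    rw [Finset.sum_ite_eq' (Finset.range (k + 1)) r (fun _ => b r),
      if_pos (Finset.mem_range.2 (by omega))] at h0
    exact h0
  have hpa : ∀ r ≤ k, psh k (fm j s) (ad n a j) r ≤
      (if r = s then psh k (fm j s) (ad n a j) s else a r) := by
    intro r hr
    by_cases hrs : r = s
    · rw [if_pos hrs, hrs]
    · rw [if_neg hrs]
      have h0 : psh k (fm j s) (ad n a j) r ≤
          ∑ t ∈ Finset.range (k + 1), if t = r then a r else 0 := by
        unfold psh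
        refine Finset.sum_le_sum (fun t _ => ?_)
        by_cases hft : fm j s t = r
        · rw [if_pos hft]
          unfold fm at hft
          by_cases hin : (j ≤ t ∧ t ≤ s) ∨ (s ≤ t ∧ t ≤ j)
          · rw [if_pos hin] at hft
            exact absurd hft.symm hrs
          · rw [if_neg hin] at hft
            have htj : t ≠ j := by omega
            subst hft
            rw [if_pos rfl]
            simp only [ad, if_neg htj]
            omega
        · rw [if_neg hft]; exact Nat.zero_le _
      rw [Finset.sum_ite_eq' (Finset.range (k + 1)) r (fun _ => a r),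
        if_pos (Finset.mem_range.2 (by omega))] at h0
      exact h0
  have hcs : 2 ≤ psh k (fm j s) (ad n a j) s := by
    have h0 : (if fm j s j = s then ad n a j j else 0) ≤ psh k (fm j s) (ad n a j) s := by
      unfold psh
      exact Finset.single_le_sum (f := fun t => if fm j s t = s then ad n a j t else 0)
        (fun _ _ => Nat.zero_le _) (Finset.mem_range.2 (show j < k + 1 by omega))
    rw [if_pos hfj] at h0
    have h00 : ad n a j j = a j + 2 * n := by simp [ad]
    omega
  have hB : Bt θ' k (fun r => if r = s then psh k (fm j s) (ad n a j) s else a r) b (fm j s i) :=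
    h3 θ' hθ.cl k k (fm j s) (ad n a j) b _ b i hmap hD hdb hL hlb hbt hpa hpb
  rw [hfi] at hB
  have hLc : Lst k (fun r => if r = s then psh k (fm j s) (ad n a j) s else a r) i := by
    refine ⟨hik, ?_, ?_⟩
    · by_cases his : i = s
      · simp only [if_pos his]; omega
      · simp only [if_neg his]; exact hai
    · intro t hit htk
      have hts : t ≠ s := by omega
      simp only [if_neg hts]
      exact haz t hit htk
  have hDc : 2 ≤ deg k (fun r => if r = s then psh k (fm j s) (ad n a j) s else a r) := by
    refine le_trans hcs ?_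
    unfold deg
    have h5 := Finset.single_le_sum (f := fun r => if r = s then psh k (fm j s) (ad n a j) s else a r)
      (fun _ _ => Nat.zero_le _) (Finset.mem_range.2 (show s < k + 1 by omega))
    rw [if_pos rfl] at h5
    exact h5
  refine h4 n θ' hθ k a _ b i hDc hdb hLc hlb (fun r hr => ?_) hB
  by_cases hrs : r = s
  · right
    rw [hrs]
    exact AbN.mono hle habs
  · left
    simp only [if_neg hrs]

end Pool.Agent.MWA.H45
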